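import Pool.Agent.H45.GapFinal

/-!
# Uniform spectral gap for random Schreier graphs of `GL_N(K)` on nonzero vectors

For every fixed finite field `K`, the Schreier graphs of two independent uniformly random
elements of `GL_N(K)` acting on the nonzero vectors of `K^N` have a uniform spectral gap with
probability tending to `1` as `N → ∞`.
-/

namespace Pool.Agent.Results.MP_c21a16_pr.UniformGap

open Matrix Filter Topology

/-- The vertex set: nonzero vectors of `K^N`. -/
abbrev Vert (K : Type*) [Field K] (N : ℕ) : Type _ := {v : Fin N → K // v ≠ 0}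

section Defs

variable {K : Type*} [Field K] {N : ℕ}

lemma mulVec_ne (g : GL (Fin N) K) (v : Vert K N) :
    (g : Matrix (Fin N) (Fin N) K) *ᵥ (v : Fin N → K) ≠ 0 := by
  intro h
  apply v.2
  have h2 := congrArg (fun w => ((g⁻¹ : GL (Fin N) K) : Matrix (Fin N) (Fin N) K) *ᵥ w) h
  simp only [Matrix.mulVec_mulVec, Matrix.mulVec_zero] at h2
  rw [← Units.val_mul, inv_mul_cancel, Units.val_one, Matrix.one_mulVec] at h2
  exact h2

/-- The action of an invertible matrix on the nonzero vectors: `v ↦ g v`. -/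
def act (g : GL (Fin N) K) (v : Vert K N) : Vert K N :=
  ⟨(g : Matrix (Fin N) (Fin N) K) *ᵥ (v : Fin N → K), mulVec_ne g v⟩

/-- The adjacency operator `T f (v) = f (A v) + f (A⁻¹ v) + f (B v) + f (B⁻¹ v)` of the Schreier
graph. -/
def adj (A B : GL (Fin N) K) (f : Vert K N → ℝ) : Vert K N → ℝ :=
  fun v => f (act A v) + f (act A⁻¹ v) + f (act B v) + f (act B⁻¹ v)

/-- Every eigenvalue of the adjacency operator that has a nonzero eigenfunction orthogonal to the
constants is at most `r` in absolute value. -/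
def SpectrumLE [Fintype K] [DecidableEq K] (A B : GL (Fin N) K) (r : ℝ) : Prop :=
  ∀ (μ : ℝ) (f : Vert K N → ℝ), f ≠ 0 → ∑ v, f v = 0 → adj A B f = (fun v => μ * f v) → |μ| ≤ r

/-- The probability, for `A` and `B` independent and uniform in `GL_N(K)`, that every such
eigenvalue is at most `r` in absolute value. -/
noncomputable def prob (K : Type*) [Field K] [Fintype K] [DecidableEq K] (N : ℕ) (r : ℝ) : ℝ :=
  (Nat.card {p : GL (Fin N) K × GL (Fin N) K // SpectrumLE p.1 p.2 r} : ℝ) /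
    (Nat.card (GL (Fin N) K × GL (Fin N) K) : ℝ)

end Defs

section Proof

set_option linter.unusedSectionVars false

variable {K : Type*} [Field K] [Fintype K] [DecidableEq K]

/-- matrices as linear automorphisms -/
noncomputable def toAut (N : ℕ) : GL (Fin N) K ≃* ((Fin N → K) ≃ₗ[K] (Fin N → K)) :=
  Matrix.GeneralLinearGroup.toLin.trans (LinearMap.GeneralLinearGroup.generalLinearEquiv K _)

lemma toAut_apply {N : ℕ} (g : GL (Fin N) K) (v : Fin N → K) :
    toAut N g v = (g : Matrix (Fin N) (Fin N) K) *ᵥ v := rfl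

lemma act_eq {N : ℕ} (g : GL (Fin N) K) (v : Vert K N) :
    act g v = H45.Gap.permV (toAut N g) v := by
  apply Subtype.ext
  rw [H45.Gap.permV_coe, toAut_apply]
  rfl

lemma bad_of_not {N : ℕ} (A B : GL (Fin N) K) (ε : ℝ) (h : ¬ SpectrumLE A B (4 - ε)) :
    H45.Gap.BadPair ε (toAut N A) (toAut N B) := by
  unfold SpectrumLE at h
  push Not at h
  obtain ⟨μ, f, hf, hf0, hT, hμ⟩ := h
  refine ⟨μ, f, hf, hf0, ?_, hμ⟩
  intro v
  have h := congrFun hT v
  unfold adj at h
  rw [act_eq, act_eq, act_eq, act_eq, map_inv, map_inv] at h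
  exact h

/-- the constant `ε` -/
noncomputable def epsK (K : Type*) [Fintype K] : ℝ :=
  (1 / (8 * (4 * (4 * (Fintype.card K : ℝ) ^ 64) + 1))) ^ 2

lemma epsK_pos (K : Type*) [Fintype K] : 0 < epsK K := by
  unfold epsK; positivity

/-- first constant of the error bound -/
noncomputable def cst (K : Type*) [Fintype K] : ℝ :=
  1 + 4 * (4 * (4 * (Fintype.card K : ℝ) ^ 64)) *
    (Fintype.card K : ℝ) ^ (2 * (4 * (4 * Fintype.card K ^ 64)))

lemma prob_ge (N : ℕ) (hN : 32 * Fintype.card K ^ 64 < N) :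
    1 - (cst K / N + (4 * (Fintype.card K : ℝ) ^ 64 + 32772) *
      (((2 ^ (Nat.log 2 (N / 64) + 1) : ℕ) : ℝ) ^ 3 * (1 / 2) ^ (2 ^ (Nat.log 2 (N / 64) + 1)))) ≤
      prob K N (4 - epsK K) := by
  classical
  set k := Nat.log 2 (N / 64) with hk
  have hq2 : 2 ≤ Fintype.card K := Fintype.one_lt_card
  have h64 : 64 ≤ N := by
    have : 2 ^ 64 ≤ Fintype.card K ^ 64 := Nat.pow_le_pow_left hq2 64
    omega
  have hdiv : N / 64 ≠ 0 := by omega
  have hk1 : 2 ^ k ≤ N / 64 := Nat.pow_log_le_self 2 hdiv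
  have hk2 : N / 64 < 2 ^ (k+1) := Nat.lt_pow_succ_log_self (by norm_num) _
  have hfr : Module.finrank K (Fin N → K) = N := by simp
  have e1 : 2 ^ (k+1) = 2 * 2 ^ k := by ring
  have hb := H45.Gap.card_bad (K := K) (E := Fin N → K) k (by rw [hfr]; omega)
    (by rw [hfr]; omega) (by rw [hfr]; exact hN)
  rw [hfr] at hb
  set θ := (1 + 4 * (4 * (4 * (Fintype.card K : ℝ) ^ 64)) *
          (Fintype.card K : ℝ) ^ (2 * (4 * (4 * Fintype.card K ^ 64)))) / (N : ℝ) +
        (4 * (Fintype.card K : ℝ) ^ 64 + 32772) * ((2 ^ (k+1) : ℕ) : ℝ) ^ 3 *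
          (1 / 2) ^ (2 ^ (k+1)) with hθ
  have hθ' : cst K / N + (4 * (Fintype.card K : ℝ) ^ 64 + 32772) *
      (((2 ^ (k + 1) : ℕ) : ℝ) ^ 3 * (1 / 2) ^ (2 ^ (k + 1))) = θ := by
    rw [hθ]; unfold cst; ring
  rw [hθ']
  unfold prob
  have hfin : Finite (GL (Fin N) K) := Finite.of_equiv _ (toAut (K := K) N).symm.toEquiv
  have : Fintype (GL (Fin N) K) := Fintype.ofFinite _
  have hcG : Nat.card (GL (Fin N) K) = Fintype.card ((Fin N → K) ≃ₗ[K] (Fin N → K)) := by
    rw [Nat.card_congr (toAut (K := K) N).toEquiv, Nat.card_eq_fintype_card]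
  have hG0 : (0 : ℝ) < Nat.card (GL (Fin N) K) := by
    exact_mod_cast Nat.card_pos
  rw [Nat.card_prod, Nat.cast_mul, le_div_iff₀ (by positivity)]
  -- good plus bad is everything
  have hgood : Nat.card {p : GL (Fin N) K × GL (Fin N) K // SpectrumLE p.1 p.2 (4 - epsK K)} +
      Nat.card {p : GL (Fin N) K × GL (Fin N) K // ¬ SpectrumLE p.1 p.2 (4 - epsK K)} =
      Nat.card (GL (Fin N) K) * Nat.card (GL (Fin N) K) := by
    rw [← Nat.card_prod, Nat.card_eq_fintype_card, Nat.card_eq_fintype_card,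
      Nat.card_eq_fintype_card, Fintype.card_subtype_compl]
    have := Fintype.card_subtype_le
      (fun p : GL (Fin N) K × GL (Fin N) K => SpectrumLE p.1 p.2 (4 - epsK K))
    omega
  have hbad : Nat.card {p : GL (Fin N) K × GL (Fin N) K // ¬ SpectrumLE p.1 p.2 (4 - epsK K)} ≤
      ((Finset.univ : Finset (((Fin N → K) ≃ₗ[K] (Fin N → K)) ×
        ((Fin N → K) ≃ₗ[K] (Fin N → K)))).filter
      (fun p => H45.Gap.BadPair (epsK K) p.1 p.2)).card := by
    rw [Nat.card_eq_fintype_card, Fintype.card_subtype]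
    refine Finset.card_le_card_of_injOn (fun p => (toAut N p.1, toAut N p.2)) ?_ ?_
    · intro p hp
      rw [Finset.mem_coe, Finset.mem_filter] at hp
      rw [Finset.mem_coe, Finset.mem_filter]
      exact ⟨Finset.mem_univ _, bad_of_not p.1 p.2 _ hp.2⟩
    · intro p _ p' _ h
      simp only [Prod.mk.injEq] at h
      exact Prod.ext ((toAut N).injective h.1) ((toAut N).injective h.2)
  have hbadR : (Nat.card {p : GL (Fin N) K × GL (Fin N) K // ¬ SpectrumLE p.1 p.2 (4 - epsK K)} : ℝ)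
      ≤ θ * (Nat.card (GL (Fin N) K) : ℝ) ^ 2 := by
    rw [hcG]
    refine le_trans ?_ hb
    exact Nat.cast_le.mpr hbad
  have hgoodR : (Nat.card {p : GL (Fin N) K × GL (Fin N) K // SpectrumLE p.1 p.2 (4 - epsK K)} : ℝ) +
      (Nat.card {p : GL (Fin N) K × GL (Fin N) K // ¬ SpectrumLE p.1 p.2 (4 - epsK K)} : ℝ) =
      (Nat.card (GL (Fin N) K) : ℝ) * (Nat.card (GL (Fin N) K) : ℝ) := by
    exact_mod_cast hgood
  nlinarith

lemma prob_le (N : ℕ) (r : ℝ) : prob K N r ≤ 1 := by
  classical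
  unfold prob
  have hfin : Finite (GL (Fin N) K) := Finite.of_equiv _ (toAut (K := K) N).symm.toEquiv
  apply div_le_one_of_le₀
  · have h := Nat.card_le_card_of_injective
      (Subtype.val : {p : GL (Fin N) K × GL (Fin N) K // SpectrumLE p.1 p.2 r} → _)
      Subtype.val_injective
    exact_mod_cast h
  · positivity

end Proof

/-- For every finite field `K` there is `ε > 0` such that, for `A` and `B` independent and uniform
in `GL_N(K)`, the adjacency operator of the Schreier graph on `K^N ∖ {0}` has with probability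
tending to `1` all its eigenvalues on the orthogonal complement of the constants bounded by
`4 - ε` in absolute value. -/
theorem result (K : Type*) [Field K] [Fintype K] [DecidableEq K] :
    ∃ ε : ℝ, 0 < ε ∧ Tendsto (fun N : ℕ => prob K N (4 - ε)) atTop (𝓝 1) := by
  refine ⟨epsK K, epsK_pos K, ?_⟩
  have hM : Tendsto (fun N : ℕ => 2 ^ (Nat.log 2 (N / 64) + 1)) atTop atTop := by
    refine tendsto_atTop_mono ?_ (Nat.tendsto_div_const_atTop (n := 64) (by norm_num))
    intro N
    exact (Nat.lt_pow_succ_log_self (by norm_num) _).le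
  have h1 : Tendsto (fun M : ℕ => (M : ℝ) ^ 3 * (1 / 2 : ℝ) ^ M) atTop (𝓝 0) :=
    tendsto_pow_const_mul_const_pow_of_lt_one 3 (by norm_num) (by norm_num)
  have h2 := h1.comp hM
  have h3 : Tendsto (fun N : ℕ => cst K / (N : ℝ)) atTop (𝓝 0) :=
    tendsto_const_div_atTop_nhds_zero_nat _
  have h4 : Tendsto (fun N : ℕ => 1 - (cst K / N + (4 * (Fintype.card K : ℝ) ^ 64 + 32772) *
      (((2 ^ (Nat.log 2 (N / 64) + 1) : ℕ) : ℝ) ^ 3 * (1 / 2) ^ (2 ^ (Nat.log 2 (N / 64) + 1)))))
      atTop (𝓝 (1 - (0 + (4 * (Fintype.card K : ℝ) ^ 64 + 32772) * 0))) :=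
    tendsto_const_nhds.sub (h3.add (tendsto_const_nhds.mul h2))
  rw [mul_zero, add_zero, sub_zero] at h4
  refine tendsto_of_tendsto_of_tendsto_of_le_of_le' h4 tendsto_const_nhds ?_ ?_
  · filter_upwards [eventually_gt_atTop (32 * Fintype.card K ^ 64)] with N hN
    exact prob_ge N hN
  · exact Eventually.of_forall fun N => prob_le N _

end Pool.Agent.Results.MP_c21a16_pr.UniformGap
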